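import Pool.Agent.T2h11.PHK.Reg

/-!
# The p-adic weight-monodromy conjecture for hyperkähler varieties: Zariski closure

Properties of the automorphisms in the Zariski closure of the image of the Galois group.
-/

set_option autoImplicit false

namespace Pool.Agent.T2h11.PHK

open Module Module.End Polynomial NumberField IsDedekindDomain
open Pool.Agent.W401.Cheb Pool.Agent.Y143 Pool.Agent.N184.HK
open scoped Classical

section

variable {K : Type} [Field K] [NumberField K] {Ω : Type} [Field Ω] [CharZero Ω] [IsAlgClosed Ω]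
  [TopologicalSpace Ω] [IsTopologicalRing Ω] [T2Space Ω] {X : HKVariety K Ω} {F : X.E.X.Auto}
  (hF : InClosure X.E.X (Set.range X.E.F) F)

include hF

/-- The elements of the algebraic monodromy group act quasi-unipotently on the commutant of
`so(H²)`. -/
lemma clo_quasi {i : ℕ} (hi : i ≤ X.d) {a : Module.End Ω (X.E.X.H i)} (ha : a ∈ cen X.E.X i) :
    (((adE (F.φ i)) ^ (expo X i) - 1) ^ (finrank Ω (cen X.E.X i))) a = 0 := by
  refine (Module.forall_dual_apply_eq_zero_iff Ω _).1 fun L => ?_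
  refine hF _ ((regE_const a).quasi (expo X i) (finrank Ω (cen X.E.X i)) L) ?_
  rintro g ⟨σ, rfl⟩
  exact (congrArg L (all_quasi X hi ha σ)).trans (map_zero L)

lemma clo_root {i : ℕ} (hi : i ≤ X.d) {a : Module.End Ω (X.E.X.H i)} (ha : a ∈ cen X.E.X i)
    (ha0 : a ≠ 0) {t : Ω} (hat : a ∈ (adE (F.φ i)).maxGenEigenspace t) :
    t ^ expo X i = 1 := by
  refine root_of_quasi (m := finrank Ω (cen X.E.X i)) ha0 hat ?_
  rintro b ⟨k, rfl⟩
  refine clo_quasi hF hi ?_
  induction k with
  | zero => exact ha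
  | succ k ih =>
    rw [_root_.pow_succ', Module.End.mul_apply, LinearMap.sub_apply]
    exact Submodule.sub_mem _ (cen_ad _ ih) (Submodule.smul_mem _ _ ih)

omit [NumberField K] [Field K] [CharZero Ω] [IsAlgClosed Ω] [TopologicalSpace Ω]
  [IsTopologicalRing Ω] [T2Space Ω] hF in
lemma ad_comm {V : Type} [AddCommGroup V] [Module Ω V] (φ : V ≃ₗ[Ω] V) (z : Module.End Ω V) :
    adE φ z = z ↔ Commute (en φ) z := by
  constructor
  · intro h
    change en φ * z = z * en φ
    ext y
    have := congrArg (fun f : Module.End Ω V => f (φ y)) h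
    simp only [adE_apply] at this
    exact this
  · intro h
    ext y
    have h1 := congrArg (fun f : Module.End Ω V => f (φ.symm y)) h.eq
    have h2 : adE φ z y = φ (z (φ.symm y)) := by simp [adE, LinearEquiv.conj_apply]
    rw [h2]
    change φ (z (φ.symm y)) = z (φ (φ.symm y)) at h1
    rw [h1, LinearEquiv.apply_symm_apply]

omit hF in
/-- Determinants of the elements of the Galois group on the images of the idempotents in the center
of the commutant. -/
lemma gal_det {i : ℕ} (hi : i ≤ X.d) {z : Module.End Ω (X.E.X.H i)} (hz : z ∈ cen X.E.X i)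
    (hzc : ∀ a ∈ cen X.E.X i, Commute a z) (hzz : z * z = z) {n : ℕ}
    (hn : LinearMap.trace Ω _ z = n) (τ : GK K) (hτ : Commute (en ((X.E.F τ).φ i)) z) :
    LinearMap.det (en ((X.E.F τ).φ i) * z + (1 - z)) ^ (4 * expo2 X i n) =
      (X.E.F τ).μ ^ (i * n * expo2 X i n) := by
  obtain ⟨O, hO, hO1, hOz⟩ := t_open Ω (X.E.X.H i) (GK K) (fun σ => (X.E.F σ).φ i)
    (fun σ τ => X.E.mul σ τ i) (X.E.cont i) z hzz fun σ => (hzc _ (cen_ad _ hz)).symm
  set O' : Set (GK K) := (fun σ => τ⁻¹ * σ) ⁻¹' O with hO'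
  have hO'o : IsOpen O' := hO.preimage (continuous_const.mul continuous_id)
  have hmem : τ ∈ O' := by
    change τ⁻¹ * τ ∈ O
    rw [inv_mul_cancel]
    exact hO1
  have hO'z : ∀ σ ∈ O', Commute (en ((X.E.F σ).φ i)) z := by
    intro σ hσ
    refine (ad_comm _ _).1 ?_
    have h1 : σ = τ * (τ⁻¹ * σ) := by group
    rw [h1, adE_mul_apply X.E, hOz _ hσ]
    exact (ad_comm _ _).2 hτ
  have hcts : Cts fun σ => en ((X.E.F σ).φ i) * z + (1 - z) := by
    intro M
    have h1 := (t_cts Ω (X.E.X.H i) (GK K) _ (fun _ => z) (X.E.cont i)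
      (fun M => continuous_const)).1 M
    simp only [map_add]
    exact h1.add continuous_const
  have hg : Continuous fun σ => LinearMap.det (en ((X.E.F σ).φ i) * z + (1 - z)) ^
      (4 * expo2 X i n) - (X.E.F σ).μ ^ (i * n * expo2 X i n) :=
    ((t_cts Ω (X.E.X.H i) (GK K) _ _ hcts hcts).2.pow _).sub (X.E.cont_μ.pow _)
  have h0 := dense_zero X hO'o hg (fun v hv hp σ hσ hfr =>
    sub_eq_zero.2 (good_det X hv hp hfr hi hz hzz (hO'z σ hσ) hn)) τ hmem
  exact sub_eq_zero.1 h0

/-- The same for the elements of the algebraic monodromy group. -/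
lemma clo_det {i : ℕ} (hi : i ≤ X.d) {z : Module.End Ω (X.E.X.H i)} (hz : z ∈ cen X.E.X i)
    (hzc : ∀ a ∈ cen X.E.X i, Commute a z) (hzz : z * z = z) {n : ℕ}
    (hn : LinearMap.trace Ω _ z = n) (hzF : Commute (en (F.φ i)) z) :
    LinearMap.det (en (F.φ i) * z + (1 - z)) ^ (4 * expo2 X i n) =
      F.μ ^ (i * n * expo2 X i n) := by
  have h1 := hF (fun g : X.E.X.Auto =>
    (∏ k ∈ Finset.range n, (LinearMap.trace Ω _ (z * adE (g.φ i) z) - (k : Ω))) *
      (LinearMap.det (en (g.φ i) * z + (1 - z)) ^ (4 * expo2 X i n) -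
        g.μ ^ (i * n * expo2 X i n)))
    (reg_mul (reg_prod _ fun k _ => reg_sub ((regE_const z).mul (regE_const z).adE).trace
      (reg_const _)) (reg_sub (reg_pow
        (((regE_phi i).mul (regE_const z)).add (regE_const (1 - z))).det _) (reg_pow reg_mu _))) ?_
  · have h2 : LinearMap.trace Ω _ (z * adE (F.φ i) z) = n := by
      rw [(ad_comm _ _).2 hzF, hzz, hn]
    simp only [h2] at h1
    rcases mul_eq_zero.1 h1 with h3 | h3
    · exfalso
      obtain ⟨k, hk, hk0⟩ := Finset.prod_eq_zero_iff.1 h3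
      rw [Finset.mem_range] at hk
      rw [sub_eq_zero] at hk0
      have : n = k := by exact_mod_cast hk0
      omega
    · exact sub_eq_zero.1 h3
  · rintro g ⟨τ, rfl⟩
    set w := adE ((X.E.F τ).φ i) z with hw
    have hww : w * w = w := P_OPEN.adE_idem _ hzz
    have hc : Commute z w := (hzc _ (cen_ad _ hz)).symm
    have hid : (z * w) * (z * w) = z * w := by
      rw [mul_assoc, ← mul_assoc w, ← hc.eq, mul_assoc, hww, ← mul_assoc, hzz]
    obtain ⟨k, -, hk⟩ := P_OPEN.tr_mem hid
    -- the rank of `z w` is at most the rank of `z`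
    have hid2 : (z - z * w) * (z - z * w) = z - z * w := by
      have e1 : z * (z * w) = z * w := by rw [← mul_assoc, hzz]
      have e2 : (z * w) * z = z * w := by rw [mul_assoc, ← hc.eq, ← mul_assoc, hzz]
      rw [sub_mul, mul_sub, mul_sub, hzz, e1, e2, hid]
      abel
    obtain ⟨k', -, hk'⟩ := P_OPEN.tr_mem hid2
    rw [map_sub, hn, hk] at hk'
    have hkn : n = k + k' := by
      have : (n : Ω) = ((k + k' : ℕ) : Ω) := by
        rw [Nat.cast_add, ← hk']; ring
      exact_mod_cast this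
    rcases Nat.lt_or_ge k n with hlt | hge
    · have h2 : ∏ k ∈ Finset.range n, (LinearMap.trace Ω _ (z * w) - (k : Ω)) = 0 :=
        Finset.prod_eq_zero (Finset.mem_range.2 hlt) (by rw [hk, sub_self])
      rw [h2, zero_mul]
    · have hkn' : k = n := by omega
      have h2 : z = z * w := P_OPEN.idem_sub hzz hww hc (by rw [hk, hn, hkn'])
      have h3 : w = w * z := P_OPEN.idem_sub hww hzz hc.symm (by
        rw [← hc.eq, hk, hw, P_OPEN.adE_trace, hn, hkn'])
      have h4 : w = z := by rw [h3, ← hc.eq, ← h2]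
      have h5 := gal_det hi hz hzc hzz hn τ ((ad_comm _ _).1 h4)
      rw [h5, sub_self, mul_zero]

variable {q : ℕ} (hq : 1 < q) (M : Monodromy F q)

include hq in
/-- The monodromy operator comes from `so(H²)`. -/
lemma clo_N {i : ℕ} (hi : i ≤ X.d) : M.N i = X.E.X.ρ i (M.N 2) := by
  have hq0 : (q : Ω) ≠ 0 := by exact_mod_cast hq.ne_bot
  set a := M.N i - X.E.X.ρ i (M.N 2) with ha
  have hcen : a ∈ cen X.E.X i := by
    intro A hA
    have h1 := M.compat i hi A hA
    have h2 := X.E.X.bracket i (M.N 2) A M.skew hA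
    rw [h2] at h1
    change X.E.X.ρ i A * a = a * X.E.X.ρ i A
    rw [ha, mul_sub, sub_mul]
    have h3 : M.N i * X.E.X.ρ i A - X.E.X.ρ i (M.N 2) * X.E.X.ρ i A =
        X.E.X.ρ i A * M.N i - X.E.X.ρ i A * X.E.X.ρ i (M.N 2) := by
      have := h1
      rw [sub_eq_sub_iff_add_eq_add] at this ⊢
      rw [this]
      abel
    exact h3.symm
  have had : adE (F.φ i) a = (q : Ω)⁻¹ • a := by
    rw [ha, map_sub, adE_twist _ hq0 (M.twist i hi), F.hc,
      adE_twist _ hq0 (M.twist 2 X.two_le), map_smul, smul_sub]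
  by_contra hne
  have ha0 : a ≠ 0 := fun h => hne (sub_eq_zero.1 h)
  have h1 := clo_root hF hi hcen ha0 (t := (q : Ω)⁻¹) (by
    rw [Module.End.mem_maxGenEigenspace]
    refine ⟨1, ?_⟩
    rw [pow_one, LinearMap.sub_apply, had]
    exact sub_self _)
  rw [inv_pow, inv_eq_one] at h1
  have h2 : q ^ expo X i = 1 := by exact_mod_cast h1
  exact absurd h2 (Nat.one_lt_pow (Nat.factorial_pos _).ne' hq).ne'

variable {W : Wt Ω} (hWU : ∀ x, W.U x ↔ ∃ w : ℤ, IsWeilNumber q w x)
  (hWw : ∀ (w : ℤ) (x : Ω), IsWeilNumber q w x → W.w x = (w : ℚ))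

omit [IsAlgClosed Ω] [IsTopologicalRing Ω] [T2Space Ω] hF in
include M in
lemma clo_weights {i : ℕ} (hi : i ≤ X.d) : ∀ e ∈ (en (F.φ i)).charpoly.roots,
    ∃ w : ℤ, IsWeilNumber q w e := by
  intro e he
  refine M.weights i hi e ?_
  rw [Polynomial.mem_roots (LinearMap.charpoly_monic _).ne_zero] at he
  exact (Module.End.hasEigenvalue_iff_isRoot_charpoly _ _).2 he

omit [IsAlgClosed Ω] [IsTopologicalRing Ω] [T2Space Ω] hF in
include hWU M in
lemma clo_U {i : ℕ} (hi : i ≤ X.d) : ∀ e ∈ (en (F.φ i)).charpoly.roots, W.U e :=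
  fun e he => (hWU e).2 (clo_weights M hi e he)

include hWU hWw M in
/-- The operator `T` commutes with the commutant of `so(H²)`. -/
lemma clo_T_cen {i : ℕ} (hi : i ≤ X.d) (κ : ℚ) {a : Module.End Ω (X.E.X.H i)}
    (ha : a ∈ cen X.E.X i) : Commute (F.T W i κ) a := by
  have hst : ∀ x ∈ cen X.E.X i, adE (F.φ i) x ∈ cen X.E.X i := fun x hx => cen_ad _ hx
  set T := F.T W i κ with hT
  have key : (LinearMap.mulLeft Ω T - LinearMap.mulRight Ω T) ∘ₗ (cen X.E.X i).subtype = 0 := by
    refine ext_gen ((adE (F.φ i)).restrict hst) fun t x hx => ?_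
    rw [LinearMap.zero_apply]
    change T * (x : Module.End Ω (X.E.X.H i)) - (x : Module.End Ω (X.E.X.H i)) * T = 0
    have hx' : (x : Module.End Ω (X.E.X.H i)) ∈ (adE (F.φ i)).maxGenEigenspace t := by
      rw [Module.End.mem_maxGenEigenspace] at hx ⊢
      obtain ⟨k, hk⟩ := hx
      refine ⟨k, ?_⟩
      have h2 : ∀ (k : ℕ) (x : cen X.E.X i),
          (((((adE (F.φ i)).restrict hst) - t • 1) ^ k) x :
            Module.End Ω (X.E.X.H i)) =
          ((adE (F.φ i) - t • 1) ^ k) (x : Module.End Ω (X.E.X.H i)) := by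
        intro k
        induction k with
        | zero => intro x; rfl
        | succ k ih =>
          intro x
          rw [_root_.pow_succ, _root_.pow_succ, Module.End.mul_apply, Module.End.mul_apply, ih]
          rfl
      rw [← h2, hk]
      rfl
    by_cases hx0 : (x : Module.End Ω (X.E.X.H i)) = 0
    · rw [hx0, mul_zero, zero_mul, sub_zero]
    have ht := clo_root hF hi x.2 hx0 hx'
    have hw : W.w t = 0 := by
      have h3 : IsWeilNumber q 0 t := by
        refine IsWeilNumber.of_pow (k := expo X i) (Nat.factorial_pos _) ?_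
        rw [ht, mul_zero]
        exact IsWeilNumber.one _
      have := hWw 0 t h3
      rw [this, Int.cast_zero]
    have h4 := T_ad (F := F) (W := W) (clo_U M hWU X.two_le) (clo_U M hWU hi) κ x.2 hx'
    rw [h4, Wt.k, hw, Rat.cast_zero, zero_smul]
  have h5 := congrArg (fun f => f ⟨a, ha⟩) key
  exact sub_eq_zero.1 h5

include hq hWU hWw M in
/-- The operator `T` is nilpotent. -/
lemma clo_T_nil {i : ℕ} (hi : i ≤ X.d) : IsNilpotent (F.T W i i) := by
  set T := F.T W i i with hT
  refine nil_of_roots fun x hx => ?_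
  obtain ⟨z, n, hn, hzz, hz, htz, htTz⟩ := proj_spec hx
  have hzcen : z ∈ cen X.E.X i := fun A hA =>
    hz _ (T_comm (clo_U M hWU X.two_le) (clo_U M hWU hi) i hA)
  have hzc : ∀ a ∈ cen X.E.X i, Commute a z := fun a ha =>
    hz a (clo_T_cen hF M hWU hWw hi i ha).symm
  have hzφ : Commute (en (F.φ i)) z := hz _ (T_comm_φ i _).symm
  have hdet := clo_det hF hi hzcen hzc hzz htz hzφ
  obtain ⟨s, hs, hcard, hsdet, htr⟩ := t_detp Ω _ _ z hzφ hzz
  rw [hsdet, M.mult] at hdet
  have hU1 : W.U 1 := (hWU 1).2 ⟨0, IsWeilNumber.one _⟩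
  have hUs : ∀ e ∈ s, W.U e := fun e he => clo_U M hWU hi e (hs e he)
  have h5 := W.w_prod hU1 hUs
  have h6 := W.w_pow hU1 h5.1 (4 * expo2 X i n)
  have hqW : IsWeilNumber q 2 (q : Ω) := by
    refine ⟨isAlgebraic_natCast q, fun y hy => ?_⟩
    have h7 : minpoly ℚ (q : Ω) = Polynomial.X - C (q : ℚ) := by
      have := minpoly.eq_X_sub_C Ω (q : ℚ)
      rw [map_natCast] at this
      exact this
    rw [h7] at hy
    simp only [map_sub, aeval_X, aeval_C, sub_eq_zero] at hy
    rw [hy]
    simp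
  have hUq : W.U (q : Ω) := (hWU _).2 ⟨2, hqW⟩
  have hwq : W.w (q : Ω) = 2 := by
    have := hWw 2 _ hqW
    rw [this]; norm_num
  have h8 := W.w_pow hU1 hUq 2
  have h9 := W.w_pow hU1 h8.1 (i * n * expo2 X i n)
  have h10 : (4 * expo2 X i n : ℚ) * (s.map W.w).sum = (i * n * expo2 X i n) * (2 * 2) := by
    have := congrArg W.w hdet
    rw [h6.2, h9.2, h8.2, h5.2, hwq] at this
    push_cast at this
    exact this
  have hpos : (0 : ℚ) < expo2 X i n := by exact_mod_cast expo2_pos X i n
  have h11 : (s.map W.w).sum = i * n := by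
    have h12 : (4 * expo2 X i n : ℚ) * ((s.map W.w).sum - i * n) = 0 := by
      rw [mul_sub, h10]; ring
    rcases mul_eq_zero.1 h12 with h | h
    · exfalso; linarith
    · linarith
  have h12 := htr W.k
  have h13 : (s.map W.k).sum = (((s.map W.w).sum : ℚ) : Ω) := cast_sum_map _ _
  rw [h13, h11, fop_split F W i (i : ℚ), add_mul, add_mul, map_add, map_add,
    tr_rho_mul (skew_S2 (clo_U M hWU X.two_le)) (fun B hB => hzcen B hB), smul_mul_assoc,
    one_mul, map_smul, htz, smul_eq_mul, add_zero, ← hT, htTz] at h12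
  have h14 : x * n = 0 := by
    have h15 : (((i : ℚ) * n : ℚ) : Ω) = ((i : ℚ) : Ω) * n := by
      rw [Rat.cast_mul, Rat.cast_natCast, Rat.cast_natCast]
    rw [h15] at h12
    exact add_eq_left.1 h12
  rcases mul_eq_zero.1 h14 with h | h
  · exact h
  · exfalso
    have : n = 0 := by exact_mod_cast h
    omega

end

end Pool.Agent.T2h11.PHK
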