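import Pool.Agent.T2h11.PHK.Reg

/-!
# The p-adic weight-monodromy conjecture for hyperkähler varieties: definitions
-/

set_option autoImplicit false

namespace Pool.Agent.T2h11.PHK

open Module NumberField IsDedekindDomain
open Pool.Agent.W401.Cheb Pool.Agent.Y143 Pool.Agent.N184.HK

section

variable {K V W V' W' : Type} [Field K] [AddCommGroup V] [Module K V] [AddCommGroup W] [Module K W]
  [AddCommGroup V'] [Module K V'] [AddCommGroup W'] [Module K W']

/-- `f` is an isometry. -/
def Isometric (q : LinearMap.BilinForm K V) (q' : LinearMap.BilinForm K V') (f : V ≃ₗ[K] V') :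
    Prop :=
  ∀ x y, q' (f x) (f y) = q x y

/-- The endomorphism `f A f⁻¹`. -/
def tr (f : V ≃ₗ[K] V') (A : Module.End K V) : Module.End K V' :=
  f.toLinearMap ∘ₗ A ∘ₗ f.symm.toLinearMap

/-- `g` respects the actions: `g (ρ A) g⁻¹ = ρ' (f A f⁻¹)`. -/
def Respects (ρ : Act K V W) (ρ' : Act K V' W') (f : V ≃ₗ[K] V') (g : W ≃ₗ[K] W') : Prop :=
  ∀ A x, g (ρ A x) = ρ' (tr f A) (g x)

end

/-- An isomorphism between the cohomologies of `X` for two Weil cohomologies with the same
coefficients: it respects the Beauville-Bogomolov-Fujiki form and the action of `so(H²)`. -/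
structure Iso {Ω : Type} [Field Ω] {d : ℕ} {c : ℚ} (X Y : Cohomology Ω d c) where
  e : ∀ i, X.H i ≃ₗ[Ω] Y.H i
  form : Isometric X.q Y.q (e 2)
  act : ∀ i, Respects (X.ρ i) (Y.ρ i) (e 2) (e i)

section

variable {Ω : Type} [Field Ω] {d : ℕ} {c : ℚ} {X Y : Cohomology Ω d c} (f : Iso X Y)

/-- The operator which corresponds to `φ i`. -/
def Iso.pullφ (F : Y.Auto) (i : ℕ) : X.H i ≃ₗ[Ω] X.H i :=
  ((f.e i).trans (F.φ i)).trans (f.e i).symm

lemma Iso.pull_similar (F : Y.Auto) : Similar X.q (f.pullφ F 2) F.μ := by
  intro x y
  have h1 := f.form ((f.e 2).symm (F.φ 2 (f.e 2 x))) ((f.e 2).symm (F.φ 2 (f.e 2 y)))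
  rw [LinearEquiv.apply_symm_apply, LinearEquiv.apply_symm_apply] at h1
  have h2 := F.similar (f.e 2 x) (f.e 2 y)
  rw [f.form] at h2
  exact h1.symm.trans h2

lemma Iso.pull_equi (F : Y.Auto) (i : ℕ) : (X.ρ i).Equi (f.pullφ F 2) (f.pullφ F i) := by
  intro A
  ext x
  change (f.e i).symm (F.φ i (f.e i (X.ρ i A x))) = X.ρ i _ ((f.e i).symm (F.φ i (f.e i x)))
  rw [LinearEquiv.symm_apply_eq, f.act, f.act, LinearEquiv.apply_symm_apply]
  have h1 := congrArg (fun g => g (f.e i x)) (F.equi i (tr (f.e 2) A))
  change F.φ i (Y.ρ i (tr (f.e 2) A) (f.e i x)) = Y.ρ i _ (F.φ i (f.e i x)) at h1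
  rw [h1]
  congr 2
  ext y
  simp [Iso.pullφ, tr]

/-- The automorphism of the first cohomology which corresponds to the automorphism `F` of the
second one. -/
def Iso.pull (F : Y.Auto) : X.Auto where
  φ := f.pullφ F
  μ := F.μ
  μ_ne := F.μ_ne
  similar := f.pull_similar F
  equi := f.pull_equi F

end

/-- The Hyodo-Kato cohomology of the projective hyperkähler variety `X` over the number field `K` at
a place `u` which divides `p`. The coefficient field `Ω` is an algebraic closure of `ℚ_p` and the
Galois cohomology `X.E` of `X` is the `p`-adic étale cohomology (`X.bad` contains the places above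
`p`).

Let `L` be a finite extension of the completion `K_u` over which the cohomology of `X` becomes
semistable, `L_0` the maximal subfield which is unramified over `ℚ_p`, and `q` the number of elements
of the residue field of `L`; it is the power of `N u` with the exponent `m`. `H i` is the Hyodo-Kato
cohomology `H^i_HK(X_L)`, with coefficients extended from `L_0` to `Ω`; it carries the form `q` and the
action of `so(H²)`, as all Weil cohomologies do. `F` is the linear Frobenius, the power `φ ^ f` with
`q = p ^ f`; it multiplies the form `q` by `q ^ 2` and its eigenvalues are `q`-Weil numbers of various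
weights (Mokrane, de Jong); `N` is the monodromy operator: it is a derivation of the cohomology ring,
`N F = q F N`, and the weight-monodromy conjecture is known for `H²` (Mokrane, de Jong). All this
is in `data`.

By the comparison theorem (Fontaine, Hyodo, Kato, Tsuji, Faltings, Beilinson) `H^i_HK(X_L)` is
`D_st(H^i_et(X))`, and `D_st` is an exact tensor functor, that is, a fibre functor on the tensor
category generated by the representations `H^i_et(X)` of the absolute Galois group of `L`. Over the
algebraically closed field `Ω` it is isomorphic to the forgetful functor (Deligne): this is `iso`. The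
Frobenius `F` is an automorphism of the fibre functor; so the automorphism of `H^i_et(X)` which
corresponds to it by `iso` is in the group of the tensor automorphisms of the forgetful functor,
which is the Zariski closure of the image of the Galois group of `L` (Saavedra): this is `closure`.

Let `Y` be a projective hyperkähler variety over a finite extension of `ℚ_p`. It is a fibre of a smooth
projective family over a number field, and by Shimizu's p-adic monodromy theorem in families the
`(φ, N)`-module `D_pst` is locally constant in the family, for the `p`-adic topology. So the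
Hyodo-Kato cohomology of `Y` is the Hyodo-Kato cohomology of a variety `X` over a number field `K` at a
place `u`, too. -/
structure HyodoKato {K : Type} [Field K] [NumberField K] {Ω : Type} [Field Ω] [CharZero Ω]
    [TopologicalSpace Ω] (X : HKVariety K Ω) (u : HeightOneSpectrum (𝓞 K)) where
  H : Cohomology Ω X.d X.c
  F : H.Auto
  m : ℕ
  m_pos : 0 < m
  data : Monodromy F (Ideal.absNorm u.asIdeal ^ m)
  iso : Iso X.E.X H
  closure : InClosure X.E.X (Set.range X.E.F) (iso.pull F)

/-- The p-adic weight-monodromy conjecture for `H^i_HK(X)` at the place `u`: the graded piece of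
degree `j` of the monodromy filtration is pure of weight `i + j`. -/
def HyodoKato.IsPure {K : Type} [Field K] [NumberField K] {Ω : Type} [Field Ω] [CharZero Ω]
    [TopologicalSpace Ω] {X : HKVariety K Ω} {u : HeightOneSpectrum (𝓞 K)}
    (D : HyodoKato X u) (i : ℕ) : Prop :=
  IsMWPure (Ideal.absNorm u.asIdeal ^ D.m) i (en (D.F.φ i)) (D.data.N i)

end Pool.Agent.T2h11.PHK
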