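import Pool.Agent.T2h11.PHK.Clo
import Pool.Agent.T2h11.PHK.Defs

/-!
# The p-adic weight-monodromy conjecture for hyperkähler varieties: the proof
-/

set_option autoImplicit false

namespace Pool.Agent.T2h11.PHK

open Module Module.End Polynomial NumberField IsDedekindDomain
open Pool.Agent.W401.Cheb Pool.Agent.Y143 Pool.Agent.N184.HK
open scoped Classical

section

variable {K : Type} [Field K] [NumberField K] {Ω : Type} [Field Ω] [CharZero Ω] [IsAlgClosed Ω]
  [TopologicalSpace Ω] [IsTopologicalRing Ω] [T2Space Ω] {X : HKVariety K Ω} {F : X.E.X.Auto}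
  (hF : InClosure X.E.X (Set.range X.E.F) F) {q : ℕ} (hq : 1 < q) (M : Monodromy F q)

include hF hq in
/-- mw purity for an element of the algebraic monodromy group and a monodromy operator. -/
theorem clo_pure {i : ℕ} (hi : i ≤ X.d) : IsMWPure q i (en (F.φ i)) (M.N i) := by
  obtain ⟨W, hWU, hWw⟩ := t_wtb Ω q hq
  have hq0 : (q : Ω) ≠ 0 := by exact_mod_cast hq.ne_bot
  have hqW : IsWeilNumber q 2 (q : Ω) := by
    refine ⟨isAlgebraic_natCast _, fun y hy => ?_⟩
    have h7 : minpoly ℚ (q : Ω) = Polynomial.X - C (q : ℚ) := by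
      have := minpoly.eq_X_sub_C Ω (q : ℚ)
      rw [map_natCast] at this
      exact this
    rw [h7] at hy
    simp only [map_sub, aeval_X, aeval_C, sub_eq_zero] at hy
    rw [hy]
    simp
  have hU1 : W.U 1 := (hWU 1).2 ⟨0, IsWeilNumber.one _⟩
  have hUq : W.U (q : Ω) := (hWU _).2 ⟨2, hqW⟩
  have hwq : W.w (q : Ω) = 2 := by
    have := hWw 2 _ hqW
    rw [this]; norm_num
  have hwμ : W.w F.μ / 2 = 2 := by
    rw [M.mult, (W.w_pow hU1 hUq 2).2, hwq]; norm_num
  have hwinv : W.k (q : Ω)⁻¹ = -2 := by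
    have h1 := W.w_mul _ _ hUq (W.inv _ hUq)
    rw [mul_inv_cancel₀ hq0, W.w_one hU1, hwq] at h1
    have h2 : W.w (q : Ω)⁻¹ = -2 := by linarith
    rw [Wt.k, h2]; norm_num
  -- the grading of `H²`
  set D := F.S2 W with hD
  have hDskew : Skew X.E.X.q D := skew_S2 (clo_U M hWU X.two_le)
  have hDfop : D = fop (en (F.φ 2)) (fun e => ((W.w e - (2 : ℤ) : ℚ) : Ω)) := by
    have : (fun e => ((W.w e - (2 : ℤ) : ℚ) : Ω)) = fun e => W.k e - ((2 : ℚ) : Ω) := by
      ext e; rw [Rat.cast_sub]; rfl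
    rw [this, fop_sub, fop_const, hD, Cohomology.Auto.S2, hwμ]
  have hN2 : M.N 2 ∈ (adE (F.φ 2)).maxGenEigenspace (q : Ω)⁻¹ := by
    rw [Module.End.mem_maxGenEigenspace]
    refine ⟨1, ?_⟩
    rw [pow_one, LinearMap.sub_apply, adE_twist _ hq0 (M.twist 2 X.two_le)]
    exact sub_self _
  have hDN : D * M.N 2 - M.N 2 * D = -(2 : Ω) • M.N 2 := by
    have h1 := comm_fop W (clo_U M hWU X.two_le) hN2
    rw [hwinv] at h1
    rw [← h1, hD, Cohomology.Auto.S2, sub_mul, mul_sub, smul_mul_assoc, mul_smul_comm, one_mul,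
      mul_one]
    abel
  have hDtop : (⨆ j : ℤ, D.eigenspace (j : Ω)) = ⊤ := by
    rw [hDfop]
    refine (t_fope Ω (X.E.X.H 2) _ _).2.2 fun e he => ?_
    obtain ⟨w, hw⟩ := clo_weights M X.two_le e he
    refine ⟨w - 2, ?_⟩
    rw [hWw w e hw]
    push_cast
    ring
  have hW2 : ∀ j : ℤ, D.eigenspace (j : Ω) = WS q (en (F.φ 2)) (2 + j) := fun j => by
    rw [hDfop]
    exact WS_eq hq (clo_weights M X.two_le) hWw 2 j
  have hfrm := t_frm Ω (X.E.X.H 2) _ hq 2 _ (M.N 2) (clo_weights M X.two_le)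
    (M.twist 2 X.two_le) M.mw_two
  have hbij : ∀ j : ℕ, Set.BijOn (⇑(M.N 2 ^ j)) (D.eigenspace (j : Ω) : Set (X.E.X.H 2))
      (D.eigenspace (-(j : Ω)) : Set (X.E.X.H 2)) := by
    intro j
    have h1 := hW2 (j : ℤ)
    have h2 := hW2 (-(j : ℤ))
    rw [Int.cast_natCast] at h1
    rw [Int.cast_neg, Int.cast_natCast, ← sub_eq_add_neg] at h2
    rw [h1, h2]
    exact hfrm j
  obtain ⟨Y, hY, hDY, hYN⟩ := t_sl2a Ω (X.E.X.H 2) X.E.X.q X.E.X.symm X.E.X.nondeg D (M.N 2)
    hDskew M.skew hDN hDtop hbij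
  -- the representation on `H^i`
  have b1 : X.E.X.ρ i D * X.E.X.ρ i Y - X.E.X.ρ i Y * X.E.X.ρ i D = (2 : Ω) • X.E.X.ρ i Y := by
    rw [← X.E.X.bracket i D Y hDskew hY, hDY, map_smul]
  have b2 : X.E.X.ρ i D * M.N i - M.N i * X.E.X.ρ i D = -(2 : Ω) • M.N i := by
    rw [clo_N hF hq M hi, ← X.E.X.bracket i D _ hDskew M.skew, hDN, map_smul]
  have b3 : X.E.X.ρ i Y * M.N i - M.N i * X.E.X.ρ i Y = X.E.X.ρ i D := by
    rw [clo_N hF hq M hi, ← X.E.X.bracket i Y _ hY M.skew, hYN]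
  obtain ⟨-, hB⟩ := t_sl2b Ω (X.E.X.H i) _ _ _ b1 b2 b3
  have hT := clo_T_nil hF hq M hWU hWw hi
  have hTc : Commute (X.E.X.ρ i D) (F.T W i i) :=
    T_comm (clo_U M hWU X.two_le) (clo_U M hWU hi) _ hDskew
  have hsum : X.E.X.ρ i D + F.T W i i =
      fop (en (F.φ i)) (fun e => ((W.w e - ((i : ℤ) : ℚ) : ℚ) : Ω)) := by
    rw [Cohomology.Auto.T, hD]
    simp only [Int.cast_natCast]
    abel
  have hWi : ∀ j : ℤ, (X.E.X.ρ i D).maxGenEigenspace (j : Ω) =
      WS q (en (F.φ i)) ((i : ℤ) + j) := fun j => by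
    rw [← t_wsp Ω (X.E.X.H i) _ _ hTc hT, hsum, (t_fope Ω (X.E.X.H i) _ _).2.1]
    exact WS_eq hq (clo_weights M hi) hWw (i : ℤ) j
  refine t_tom Ω (X.E.X.H i) _ hq i _ (M.N i) (clo_weights M hi) (M.twist i hi) fun j => ?_
  have h1 := hWi (j : ℤ)
  have h2 := hWi (-(j : ℤ))
  rw [Int.cast_natCast] at h1
  rw [Int.cast_neg, Int.cast_natCast, ← sub_eq_add_neg] at h2
  rw [← h1, ← h2]
  exact hB j

end

section

variable {Ω V W : Type} [Field Ω] [CharZero Ω] [AddCommGroup V] [Module Ω V] [AddCommGroup W]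
  [Module Ω W] (e : V ≃ₗ[Ω] W)

/-- mw purity only depends on the isomorphism class. -/
lemma mw_iso {q : ℕ} {i : ℤ} {Φ N : Module.End Ω V} {Φ' N' : Module.End Ω W}
    (hΦ : ∀ x, e (Φ x) = Φ' (e x)) (hN : ∀ x, e (N x) = N' (e x)) (h : IsMWPure q i Φ N) :
    IsMWPure q i Φ' N' := by
  obtain ⟨M, hM, hst, hw⟩ := h
  have hNk : ∀ (k : ℕ) x, e ((N ^ k) x) = (N' ^ k) (e x) := by
    intro k
    induction k with
    | zero => intro x; rfl
    | succ k ih =>
      intro x
      rw [_root_.pow_succ, _root_.pow_succ, Module.End.mul_apply, Module.End.mul_apply, ih, hN]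
  have hmem : ∀ a y, y ∈ (M a).comap e.symm.toLinearMap ↔ e.symm y ∈ M a := fun a y => Iff.rfl
  have hΦ' : ∀ y, e.symm (Φ' y) = Φ (e.symm y) := fun y => by
    rw [LinearEquiv.symm_apply_eq, hΦ, LinearEquiv.apply_symm_apply]
  have hN' : ∀ y, e.symm (N' y) = N (e.symm y) := fun y => by
    rw [LinearEquiv.symm_apply_eq, hN, LinearEquiv.apply_symm_apply]
  have hNk' : ∀ (k : ℕ) y, e.symm ((N' ^ k) y) = (N ^ k) (e.symm y) := fun k y => by
    rw [LinearEquiv.symm_apply_eq, hNk, LinearEquiv.apply_symm_apply]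
  refine ⟨fun a => (M a).comap e.symm.toLinearMap, ⟨?_, ?_, ?_, ?_, ?_, ?_⟩, ?_, ?_⟩
  · intro a b hab y hy
    exact hM.mono hab hy
  · obtain ⟨a, ha⟩ := hM.bot
    refine ⟨a, ?_⟩
    rw [eq_bot_iff]
    intro y hy
    have h1 : e.symm y ∈ M a := hy
    rw [ha, Submodule.mem_bot] at h1
    rw [Submodule.mem_bot]
    exact e.symm.map_eq_zero_iff.1 h1
  · obtain ⟨a, ha⟩ := hM.top
    refine ⟨a, ?_⟩
    rw [eq_top_iff]
    intro y _
    change e.symm y ∈ M a
    rw [ha]
    exact Submodule.mem_top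
  · intro a y hy
    rw [hmem] at hy ⊢
    rw [hN']
    exact hM.map a _ hy
  · intro a y hy h
    rw [hmem] at hy h ⊢
    rw [hNk'] at h
    exact hM.inj a _ hy h
  · intro a y hy
    rw [hmem] at hy
    obtain ⟨x, hx, hxy⟩ := hM.surj a _ hy
    refine ⟨e x, ?_, ?_⟩
    · rw [hmem, e.symm_apply_apply]
      exact hx
    · rw [hmem, map_sub, hNk', e.symm_apply_apply]
      exact hxy
  · intro a y hy
    rw [hmem] at hy ⊢
    rw [hΦ']
    exact hst a _ hy
  · intro a α y hy hy' h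
    rw [hmem] at hy hy' h
    rw [map_sub, map_smul, hΦ'] at h
    exact hw a α _ hy hy' h

end

section

variable {Ω : Type} [Field Ω] [CharZero Ω] {d : ℕ} {c : ℚ} {X Y : Cohomology Ω d c} (f : Iso X Y)

/-- The monodromy operators for the first cohomology. -/
def Iso.pullM {F : Y.Auto} {q : ℕ} (M : Monodromy F q) (hd : 2 ≤ d) :
    Monodromy (f.pull F) q where
  mult := M.mult
  N i := (f.e i).symm.conj (M.N i)
  skew := by
    intro x y
    have h1 := M.skew (f.e 2 x) (f.e 2 y)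
    have h2 : ∀ x, f.e 2 ((f.e 2).symm.conj (M.N 2) x) = M.N 2 (f.e 2 x) := fun x => by
      simp [LinearEquiv.conj_apply]
    rw [← f.form, ← f.form, h2, h2]
    exact h1
  compat := by
    intro i hi A hA
    have hA' : Skew Y.q (tr (f.e 2) A) := by
      intro x y
      have h1 := hA ((f.e 2).symm x) ((f.e 2).symm y)
      rw [← f.form, ← f.form] at h1
      simpa [tr] using h1
    have h1 := M.compat i hi _ hA'
    ext x
    have h2 := congrArg (fun g => g (f.e i x)) h1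
    apply (f.e i).injective
    have h3 : ∀ y, f.e i ((f.e i).symm.conj (M.N i) y) = M.N i (f.e i y) := fun y => by
      simp [LinearEquiv.conj_apply]
    change f.e i ((f.e i).symm.conj (M.N i) (X.ρ i A x) -
      X.ρ i A ((f.e i).symm.conj (M.N i) x)) = f.e i (X.ρ i _ x)
    change M.N i (Y.ρ i (tr (f.e 2) A) (f.e i x)) -
      Y.ρ i (tr (f.e 2) A) (M.N i (f.e i x)) = Y.ρ i _ (f.e i x) at h2
    rw [map_sub, h3, f.act, f.act, f.act, h3, h2]
    congr 2
    ext y
    simp [tr, LinearEquiv.conj_apply]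
  twist := by
    intro i hi x
    have h1 := M.twist i hi (f.e i x)
    apply (f.e i).injective
    change f.e i ((f.e i).symm.conj (M.N i) ((f.e i).symm (F.φ i (f.e i x)))) =
      f.e i ((q : Ω) • ((f.e i).symm (F.φ i (f.e i ((f.e i).symm.conj (M.N i) x)))))
    have h3 : ∀ y, f.e i ((f.e i).symm.conj (M.N i) y) = M.N i (f.e i y) := fun y => by
      simp [LinearEquiv.conj_apply]
    rw [h3, h3, map_smul, LinearEquiv.apply_symm_apply, LinearEquiv.apply_symm_apply]
    exact h1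
  weights := by
    intro i hi a ha
    refine M.weights i hi a ?_
    obtain ⟨x, hx⟩ := ha.exists_hasEigenvector
    refine Module.End.hasEigenvalue_of_hasEigenvector (x := f.e i x) ?_
    rw [Module.End.hasEigenvector_iff] at hx ⊢
    refine ⟨?_, fun h => hx.2 ((f.e i).map_eq_zero_iff.1 h)⟩
    have h1 := Module.End.mem_eigenspace_iff.1 hx.1
    rw [Module.End.mem_eigenspace_iff]
    have h2 := congrArg (f.e i) h1
    change f.e i ((f.e i).symm (F.φ i (f.e i x))) = f.e i (a • x) at h2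
    rw [LinearEquiv.apply_symm_apply, map_smul] at h2
    exact h2
  mw_two := by
    refine mw_iso (f.e 2).symm (fun x => ?_) (fun x => ?_) M.mw_two
    · change (f.e 2).symm (F.φ 2 x) = (f.e 2).symm (F.φ 2 (f.e 2 ((f.e 2).symm x)))
      rw [LinearEquiv.apply_symm_apply]
    · simp [LinearEquiv.conj_apply]

end

section

variable {K : Type} [Field K] [NumberField K] {Ω : Type} [Field Ω] [CharZero Ω] [IsAlgClosed Ω]
  [TopologicalSpace Ω] [IsTopologicalRing Ω] [T2Space Ω] {X : HKVariety K Ω}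
  {u : HeightOneSpectrum (𝓞 K)} (D : HyodoKato X u)

/-- **The p-adic weight-monodromy conjecture for projective hyperkähler varieties over number
fields.** -/
theorem hk_pure {i : ℕ} (hi : i ≤ X.d) : D.IsPure i := by
  have hq : 1 < Ideal.absNorm u.asIdeal ^ D.m := Nat.one_lt_pow D.m_pos.ne' (one_lt_q (u := u))
  have h := clo_pure D.closure hq (D.iso.pullM D.data X.two_le) hi
  refine mw_iso (D.iso.e i) (fun x => ?_) (fun x => ?_) h
  · change D.iso.e i ((D.iso.e i).symm (D.F.φ i (D.iso.e i x))) = D.F.φ i (D.iso.e i x)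
    rw [LinearEquiv.apply_symm_apply]
  · change D.iso.e i ((D.iso.e i).symm.conj (D.data.N i) x) = D.data.N i (D.iso.e i x)
    simp [LinearEquiv.conj_apply]

end

end Pool.Agent.T2h11.PHK
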