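import Pool.Agent.N184.HK.W7

/-!
# The p-adic weight-monodromy conjecture for hyperkähler varieties: regular functions

The group of the automorphisms of the cohomology as an affine group scheme: regular functions and the
Zariski closure.
-/

set_option autoImplicit false

namespace Pool.Agent.T2h11.PHK

open Module Polynomial
open Pool.Agent.N184.HK

section

variable {Ω : Type} [Field Ω] {d : ℕ} {c : ℚ} (X : Cohomology Ω d c)

/-- The matrix coefficient of `φ i` for the linear form `L` and the vector `x`. -/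
def coef (i : ℕ) (L : Dual Ω (X.H i)) (x : X.H i) : X.Auto → Ω := fun g => L (g.φ i x)

/-- The matrix coefficient of the inverse of `φ i` for the linear form `L` and the vector `x`. -/
def coefInv (i : ℕ) (L : Dual Ω (X.H i)) (x : X.H i) : X.Auto → Ω := fun g => L ((g.φ i).symm x)

/-- The regular functions on the group of the automorphisms of the cohomology: the algebra which is
generated by the matrix coefficients of `φ i` and of its inverse, for all `i`, and the multiplier
`μ`. -/
noncomputable def regular : Subalgebra Ω (X.Auto → Ω) :=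
  Algebra.adjoin Ω {f | (∃ i L x, f = coef X i L x) ∨ (∃ i L x, f = coefInv X i L x) ∨
    f = fun g => g.μ}

/-- `F` is in the Zariski closure of the set `S` of automorphisms: every regular function which
vanishes on `S` vanishes at `F`. -/
def InClosure (S : Set X.Auto) (F : X.Auto) : Prop :=
  ∀ f ∈ regular X, (∀ g ∈ S, f g = 0) → f F = 0

variable {X}

lemma reg_phi (i : ℕ) (L : Dual Ω (X.H i)) (x : X.H i) :
    (fun g : X.Auto => L (g.φ i x)) ∈ regular X :=
  Algebra.subset_adjoin (Or.inl ⟨i, L, x, rfl⟩)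

lemma reg_symm (i : ℕ) (L : Dual Ω (X.H i)) (x : X.H i) :
    (fun g : X.Auto => L ((g.φ i).symm x)) ∈ regular X :=
  Algebra.subset_adjoin (Or.inr (Or.inl ⟨i, L, x, rfl⟩))

lemma reg_mu : (fun g : X.Auto => g.μ) ∈ regular X :=
  Algebra.subset_adjoin (Or.inr (Or.inr rfl))

lemma reg_const (a : Ω) : (fun _ : X.Auto => a) ∈ regular X :=
  (regular X).algebraMap_mem a

lemma reg_add {f g : X.Auto → Ω} (hf : f ∈ regular X) (hg : g ∈ regular X) :
    (fun F => f F + g F) ∈ regular X :=
  (regular X).add_mem hf hg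

lemma reg_sub {f g : X.Auto → Ω} (hf : f ∈ regular X) (hg : g ∈ regular X) :
    (fun F => f F - g F) ∈ regular X :=
  (regular X).sub_mem hf hg

lemma reg_mul {f g : X.Auto → Ω} (hf : f ∈ regular X) (hg : g ∈ regular X) :
    (fun F => f F * g F) ∈ regular X :=
  (regular X).mul_mem hf hg

lemma reg_pow {f : X.Auto → Ω} (hf : f ∈ regular X) (n : ℕ) :
    (fun F => f F ^ n) ∈ regular X :=
  (regular X).pow_mem hf n

lemma reg_sum {ι : Type} (s : Finset ι) {f : ι → X.Auto → Ω} (hf : ∀ j ∈ s, f j ∈ regular X) :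
    (fun F => ∑ j ∈ s, f j F) ∈ regular X := by
  have h := (regular X).sum_mem hf
  have e : (∑ j ∈ s, f j) = fun F => ∑ j ∈ s, f j F := by
    funext F
    rw [Finset.sum_apply]
  rwa [e] at h

lemma reg_prod {ι : Type} (s : Finset ι) {f : ι → X.Auto → Ω} (hf : ∀ j ∈ s, f j ∈ regular X) :
    (fun F => ∏ j ∈ s, f j F) ∈ regular X := by
  have h := (regular X).prod_mem hf
  have e : (∏ j ∈ s, f j) = fun F => ∏ j ∈ s, f j F := by
    funext F
    rw [Finset.prod_apply]
  rwa [e] at h

/-- The coefficients of `g F` are regular functions. -/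
def RegE {i : ℕ} (g : X.Auto → Module.End Ω (X.H i)) : Prop :=
  ∀ L : Module.End Ω (X.H i) →ₗ[Ω] Ω, (fun F => L (g F)) ∈ regular X

lemma dual_end_expand {V : Type} [AddCommGroup V] [Module Ω V] [FiniteDimensional Ω V]
    (L : Module.End Ω V →ₗ[Ω] Ω) (A : Module.End Ω V) :
    L A = ∑ i, ∑ j, LinearMap.toMatrix (Module.finBasis Ω V) (Module.finBasis Ω V) A i j *
      L ((LinearMap.toMatrix (Module.finBasis Ω V) (Module.finBasis Ω V)).symm
        (Matrix.single i j 1)) := by
  set b := Module.finBasis Ω V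
  have h1 : A = (LinearMap.toMatrix b b).symm (LinearMap.toMatrix b b A) := by simp
  conv_lhs => rw [h1, Matrix.matrix_eq_sum_single (LinearMap.toMatrix b b A)]
  rw [map_sum, map_sum]
  refine Finset.sum_congr rfl fun i _ => ?_
  rw [map_sum, map_sum]
  refine Finset.sum_congr rfl fun j _ => ?_
  have h2 : Matrix.single i j (LinearMap.toMatrix b b A i j) =
      (LinearMap.toMatrix b b A i j) • Matrix.single i j (1 : Ω) := by
    rw [Matrix.smul_single, smul_eq_mul, mul_one]
  rw [h2, map_smul, map_smul, smul_eq_mul]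

/-- The linear functional `A ↦ (A)_{jk}`. -/
noncomputable def entryL (V : Type) [AddCommGroup V] [Module Ω V] [FiniteDimensional Ω V]
    (j k : Fin (finrank Ω V)) : Module.End Ω V →ₗ[Ω] Ω :=
  (Matrix.entryLinearMap Ω Ω j k) ∘ₗ
    (LinearMap.toMatrix (Module.finBasis Ω V) (Module.finBasis Ω V)).toLinearMap

lemma regE_entries {i : ℕ} {g : X.Auto → Module.End Ω (X.H i)}
    (h : ∀ j k, (fun F => LinearMap.toMatrix (Module.finBasis Ω (X.H i))
      (Module.finBasis Ω (X.H i)) (g F) j k) ∈ regular X) : RegE g := by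
  intro L
  have e : (fun F => L (g F)) = fun F => ∑ j, ∑ k,
      LinearMap.toMatrix (Module.finBasis Ω (X.H i)) (Module.finBasis Ω (X.H i)) (g F) j k *
      L ((LinearMap.toMatrix (Module.finBasis Ω (X.H i)) (Module.finBasis Ω (X.H i))).symm
        (Matrix.single j k 1)) := by
    funext F
    exact dual_end_expand L (g F)
  rw [e]
  exact reg_sum _ fun j _ => reg_sum _ fun k _ => reg_mul (h j k) (reg_const _)

lemma RegE.entry {i : ℕ} {g : X.Auto → Module.End Ω (X.H i)} (h : RegE g)
    (j k : Fin (finrank Ω (X.H i))) : (fun F => LinearMap.toMatrix (Module.finBasis Ω (X.H i))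
      (Module.finBasis Ω (X.H i)) (g F) j k) ∈ regular X :=
  h (entryL (X.H i) j k)

lemma regE_phi (i : ℕ) : RegE fun F : X.Auto => en (F.φ i) := by
  refine regE_entries fun j k => ?_
  have e : (fun F : X.Auto => LinearMap.toMatrix (Module.finBasis Ω (X.H i))
      (Module.finBasis Ω (X.H i)) (en (F.φ i)) j k) =
      fun F => ((Module.finBasis Ω (X.H i)).coord j) (F.φ i (Module.finBasis Ω (X.H i) k)) := by
    funext F
    rw [LinearMap.toMatrix_apply]
    rfl
  rw [e]
  exact reg_phi i _ _

lemma regE_symm (i : ℕ) : RegE fun F : X.Auto => en (F.φ i).symm := by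
  refine regE_entries fun j k => ?_
  have e : (fun F : X.Auto => LinearMap.toMatrix (Module.finBasis Ω (X.H i))
      (Module.finBasis Ω (X.H i)) (en (F.φ i).symm) j k) =
      fun F => ((Module.finBasis Ω (X.H i)).coord j)
        ((F.φ i).symm (Module.finBasis Ω (X.H i) k)) := by
    funext F
    rw [LinearMap.toMatrix_apply]
    rfl
  rw [e]
  exact reg_symm i _ _

lemma regE_const {i : ℕ} (a : Module.End Ω (X.H i)) : RegE fun _ : X.Auto => a :=
  fun L => reg_const (L a)

lemma RegE.add {i : ℕ} {g h : X.Auto → Module.End Ω (X.H i)} (hg : RegE g) (hh : RegE h) :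
    RegE fun F => g F + h F := by
  intro L
  simp only [map_add]
  exact reg_add (hg L) (hh L)

lemma RegE.sub {i : ℕ} {g h : X.Auto → Module.End Ω (X.H i)} (hg : RegE g) (hh : RegE h) :
    RegE fun F => g F - h F := by
  intro L
  simp only [map_sub]
  exact reg_sub (hg L) (hh L)

lemma RegE.mul {i : ℕ} {g h : X.Auto → Module.End Ω (X.H i)} (hg : RegE g) (hh : RegE h) :
    RegE fun F => g F * h F := by
  refine regE_entries fun j k => ?_
  have e : (fun F : X.Auto => LinearMap.toMatrix (Module.finBasis Ω (X.H i))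
      (Module.finBasis Ω (X.H i)) (g F * h F) j k) = fun F => ∑ l,
      LinearMap.toMatrix (Module.finBasis Ω (X.H i)) (Module.finBasis Ω (X.H i)) (g F) j l *
      LinearMap.toMatrix (Module.finBasis Ω (X.H i)) (Module.finBasis Ω (X.H i)) (h F) l k := by
    funext F
    rw [LinearMap.toMatrix_mul]
    rfl
  rw [e]
  exact reg_sum _ fun l _ => reg_mul (hg.entry j l) (hh.entry l k)

lemma RegE.det {i : ℕ} {g : X.Auto → Module.End Ω (X.H i)} (hg : RegE g) :
    (fun F => LinearMap.det (g F)) ∈ regular X := by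
  have e : (fun F : X.Auto => LinearMap.det (g F)) = fun F =>
      ∑ σ : Equiv.Perm (Fin (finrank Ω (X.H i))), ((Equiv.Perm.sign σ : ℤ) : Ω) *
        ∏ j, LinearMap.toMatrix (Module.finBasis Ω (X.H i)) (Module.finBasis Ω (X.H i)) (g F)
          (σ j) j := by
    funext F
    rw [← LinearMap.det_toMatrix (Module.finBasis Ω (X.H i)), Matrix.det_apply']
  rw [e]
  exact reg_sum _ fun σ _ => reg_mul (reg_const _) (reg_prod _ fun j _ => hg.entry _ _)

lemma RegE.trace {i : ℕ} {g : X.Auto → Module.End Ω (X.H i)} (hg : RegE g) :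
    (fun F => LinearMap.trace Ω (X.H i) (g F)) ∈ regular X :=
  hg (LinearMap.trace Ω (X.H i))

lemma RegE.adE {i : ℕ} {g : X.Auto → Module.End Ω (X.H i)} (hg : RegE g) :
    RegE fun F => adE (F.φ i) (g F) := by
  have e : (fun F : X.Auto => Pool.Agent.N184.HK.adE (F.φ i) (g F)) =
      fun F => en (F.φ i) * g F * en (F.φ i).symm := by
    funext F
    rfl
  rw [e]
  exact ((regE_phi i).mul hg).mul (regE_symm i)

lemma RegE.adE_pow {i : ℕ} (M : ℕ) {g : X.Auto → Module.End Ω (X.H i)} (hg : RegE g) :
    RegE fun F => ((Pool.Agent.N184.HK.adE (F.φ i)) ^ M) (g F) := by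
  induction M with
  | zero => exact hg
  | succ M ih =>
    have h2 : (fun F : X.Auto => ((Pool.Agent.N184.HK.adE (F.φ i)) ^ (M + 1)) (g F)) =
        fun F => Pool.Agent.N184.HK.adE (F.φ i)
          (((Pool.Agent.N184.HK.adE (F.φ i)) ^ M) (g F)) := by
      funext F
      rw [_root_.pow_succ']
      rfl
    rw [h2]
    exact ih.adE

lemma RegE.quasi {i : ℕ} (M m : ℕ) {g : X.Auto → Module.End Ω (X.H i)} (hg : RegE g) :
    RegE fun F => (((Pool.Agent.N184.HK.adE (F.φ i)) ^ M - 1) ^ m) (g F) := by
  induction m with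
  | zero => exact hg
  | succ m ih =>
    have h2 : (fun F : X.Auto => ((((Pool.Agent.N184.HK.adE (F.φ i)) ^ M - 1) ^ (m + 1)) (g F))) =
        fun F => (((Pool.Agent.N184.HK.adE (F.φ i)) ^ M)
          ((((Pool.Agent.N184.HK.adE (F.φ i)) ^ M - 1) ^ m) (g F))) -
          ((((Pool.Agent.N184.HK.adE (F.φ i)) ^ M - 1) ^ m) (g F)) := by
      funext F
      rw [_root_.pow_succ']
      rfl
    rw [h2]
    exact (ih.adE_pow M).sub ih

end

end Pool.Agent.T2h11.PHK
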